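import Pool.Agent.H73.AL.Final

/-!
# GJ/X-Loc: the local signs of lists with the same marks at the subgroups of the decomposition groups

As `loc_mark` and `rel_loc` (H73/AL).
-/

namespace Pool.Agent.GJ

open NumberField Pool.Agent.H73.DU Pool.Agent.H73.AL Pool.Agent.QD

open scoped TensorProduct

private theorem alg_cl' (inst : Algebra ℚ (AlgebraicClosure ℚ)) :
    IsAlgClosure ℚ (AlgebraicClosure ℚ) := by
  have h : inst = AlgebraicClosure.instAlgebra ℚ := Subsingleton.elim _ _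
  subst h
  infer_instance

private theorem ext_loc {Ω : Type} [Field Ω] [CharZero Ω] (i : AlgebraicClosure ℚ →+* Ω)
    (σ : Ω ≃+* Ω) : ∃ g : GQ, ∀ x, i (g x) = σ (i x) := by
  have : IsAlgClosure ℚ (AlgebraicClosure ℚ) := alg_cl' inferInstance
  have : Normal ℚ (AlgebraicClosure ℚ) := IsAlgClosure.normal ℚ _
  let _ : Algebra (AlgebraicClosure ℚ) Ω := i.toAlgebra
  let _ : Algebra ℚ Ω := DivisionRing.toRatAlgebra
  have : IsScalarTower ℚ (AlgebraicClosure ℚ) Ω :=
    IsScalarTower.of_algebraMap_eq' (Subsingleton.elim _ _)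
  let σ' : Ω ≃ₐ[ℚ] Ω := AlgEquiv.ofRingEquiv (f := σ) (fun r => by
    rw [eq_ratCast, map_ratCast])
  refine ⟨σ'.restrictNormal (AlgebraicClosure ℚ), fun x => ?_⟩
  exact σ'.restrictNormal_commutes (AlgebraicClosure ℚ) x

theorem loc_mark0 (l : ℕ) [hl : Fact l.Prime]
    (U : Subgroup (AlgebraicClosure ℚ_[l] ≃ₐ[ℚ_[l]] AlgebraicClosure ℚ_[l])) :
    ∃ U' : Subgroup GQ, U' ≤ decomp ℚ_[l] (emb l) ∧ ∀ (F : Type) [Field F] [NumberField F],
      pch _ (F →+* AlgebraicClosure ℚ_[l]) U = mark F U' := by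
  classical
  set i := emb l with hi
  have hinj : Function.Injective i := i.injective
  let U' : Subgroup GQ :=
    { carrier := {g | ∃ σ ∈ U, ∀ x, i (g x) = σ (i x)}
      mul_mem' := by
        rintro a b ⟨σ, hσU, hσ⟩ ⟨τ, hτU, hτ⟩
        refine ⟨σ * τ, U.mul_mem hσU hτU, fun x => ?_⟩
        change i (a (b x)) = σ (τ (i x))
        rw [hσ, hτ]
      one_mem' := ⟨1, U.one_mem, fun _ => rfl⟩
      inv_mem' := by
        rintro a ⟨σ, hσU, hσ⟩
        refine ⟨σ⁻¹, U.inv_mem hσU, fun x => ?_⟩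
        apply σ.injective
        rw [← hσ]
        change i (a (a.symm x)) = σ (σ.symm (i x))
        rw [AlgEquiv.apply_symm_apply, AlgEquiv.apply_symm_apply] }
  have hU' : ∀ g : GQ, g ∈ U' ↔ ∃ σ ∈ U, ∀ x, i (g x) = σ (i x) := fun g => Iff.rfl
  refine ⟨U', ?_, ?_⟩
  · rintro g ⟨σ, _, h⟩
    exact ⟨σ, h⟩
  · intro F _ _
    unfold mark pch
    congr 1
    let f : (F →+* AlgebraicClosure ℚ) → (F →+* AlgebraicClosure ℚ_[l]) := fun φ => i.comp φ
    have hf : Function.Injective f := by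
      intro φ ψ h
      refine RingHom.ext fun x => hinj ?_
      exact congrArg (fun z : F →+* AlgebraicClosure ℚ_[l] => z x) h
    have hbij : Function.Bijective f := by
      rw [Fintype.bijective_iff_injective_and_card]
      refine ⟨hf, ?_⟩
      rw [NumberField.Embeddings.card, NumberField.Embeddings.card]
    symm
    refine Nat.card_congr ((Equiv.ofBijective f hbij).subtypeEquiv fun φ => ?_)
    change (∀ u ∈ U', u • φ = φ) ↔ (∀ u ∈ U, u • (i.comp φ) = i.comp φ)
    constructor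
    · intro h σ hσ
      obtain ⟨g, hg⟩ := ext_loc i (σ : AlgebraicClosure ℚ_[l] ≃+* AlgebraicClosure ℚ_[l])
      have h1 := h g ⟨σ, hσ, hg⟩
      refine RingHom.ext fun x => ?_
      change σ (i (φ x)) = i (φ x)
      have h2 : g (φ x) = φ x := congrArg (fun z : F →+* AlgebraicClosure ℚ => z x) h1
      have h3 := hg (φ x)
      rw [h2] at h3
      exact h3.symm
    · rintro h g ⟨σ, hσ, hg⟩
      refine RingHom.ext fun x => hinj ?_
      change i (g (φ x)) = i (φ x)
      rw [hg]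
      exact congrArg (fun z : F →+* AlgebraicClosure ℚ_[l] => z x) (h σ hσ)



/-- multiplicative functions of the local algebras -/
theorem rel_loc0 {A B : List NF} (l : ℕ) [Fact l.Prime]
    (h : ∀ U : Subgroup GQ, U ≤ decomp ℚ_[l] (emb l) →
      (A.map fun F => mark F.F U).sum = (B.map fun F => mark F.F U).sum)
    {W : Type} [CommMonoid W]
    (Ψ : ∀ (R : Type) [CommRing R] [Algebra ℚ_[l] R], W)
    (hiso : ∀ (R R' : Type) [CommRing R] [Algebra ℚ_[l] R] [CommRing R'] [Algebra ℚ_[l] R']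
      [Module.Finite ℚ_[l] R] [Module.Finite ℚ_[l] R'], Nonempty (R ≃ₐ[ℚ_[l]] R') → Ψ R = Ψ R')
    (hprod : ∀ (R R' : Type) [CommRing R] [Algebra ℚ_[l] R] [CommRing R'] [Algebra ℚ_[l] R']
      [Module.Finite ℚ_[l] R] [Module.Finite ℚ_[l] R'], Ψ (R × R') = Ψ R * Ψ R')
    (hone : Ψ PUnit = 1) :
    (A.map fun F => Ψ (ℚ_[l] ⊗[ℚ] F.F)).prod = (B.map fun F => Ψ (ℚ_[l] ⊗[ℚ] F.F)).prod := by
  obtain ⟨X, hX, hXf, hXU, hXF, hXΨ⟩ := list_set l Ψ hiso hprod hone A
  obtain ⟨Y, hY, hYf, hYU, hYF, hYΨ⟩ := list_set l Ψ hiso hprod hone B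
  rw [← hXΨ, ← hYΨ]
  obtain ⟨e, he⟩ := marks_iso X Y (fun U => by
    obtain ⟨U', hU', hm⟩ := loc_mark0 l U
    rw [hXU, hYU]
    have h1 := h U' hU'
    simp only [← hm] at h1
    exact h1)
  exact hiso _ _ (gro_iso e he)

/-- the products of the local signs at `T` -/
theorem rel_sg0 {T : Finset ℕ} (D : LocData T) {A B : List NF}
    (h : ∀ l ∈ T, ∀ _ : Fact l.Prime, ∀ U : Subgroup GQ, U ≤ decomp ℚ_[l] (emb l) →
      (A.map fun F => mark F.F U).sum = (B.map fun F => mark F.F U).sum) :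
    (A.map fun F => D.sg F.F).prod = (B.map fun F => D.sg F.F).prod := by
  classical
  unfold LocData.sg
  refine rel_T _ fun p hp => ?_
  by_cases hpp : p.Prime
  · haveI := Fact.mk hpp
    simp only [hpp, dif_pos]
    exact rel_loc0 p (h p hp ⟨hpp⟩) (fun R _ _ => D.sgn p R)
      (fun R R' _ _ _ _ _ _ e => D.sgn_iso p R R' e)
      (fun R R' _ _ _ _ _ _ => D.sgn_prod p R R') (sgn_punit D p)
  · simp [hpp]

theorem sg_sq {T : Finset ℕ} (D : LocData T) (F : Type) [Field F] [NumberField F] :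
    D.sg F = 1 ∨ D.sg F = -1 := by
  have h := w_sq D F
  unfold LocData.w at h
  rcases neg_one_pow_eq_or ℂ (InfinitePlace.nrRealPlaces F + InfinitePlace.nrComplexPlaces F) with
    h2 | h2 <;> rw [h2] at h
  · rcases h with h | h
    · left
      rw [one_mul] at h
      exact_mod_cast h
    · right
      rw [one_mul] at h
      exact_mod_cast h
  · rcases h with h | h
    · right
      have h3 : ((D.sg F : ℤ) : ℂ) = -1 := by linear_combination -h
      exact_mod_cast h3
    · left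
      have h3 : ((D.sg F : ℤ) : ℂ) = 1 := by linear_combination -h
      exact_mod_cast h3

theorem sg_list {T : Finset ℕ} (D : LocData T) (C : List NF) :
    (C.map fun F => D.sg F.F).prod * (C.map fun F => D.sg F.F).prod = 1 := by
  induction C with
  | nil => simp
  | cons F C ih =>
    rw [List.map_cons, List.prod_cons, mul_mul_mul_comm, ih, mul_one]
    rcases sg_sq D F.F with h | h <;> rw [h] <;> norm_num

end Pool.Agent.GJ
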