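import Pool.Agent.GJ.X.Eul
import Pool.Agent.GJ.X.Loc
import Pool.Agent.TS.C.Sgn

/-!
# GJ/X-Lem: the sign from a relation at the procyclic subgroups and a relation modulo squares at `T`

`Rel ∅` gives equal Euler products away from `T`, equal degrees and equal numbers of real and complex
places.  The quotient of the products of the completed functions is `c ^ (s / 2)` times a quotient of
products of Euler polynomials at `T`, without zero or pole at `s = 1`; the functional equations at
`s = 1` show that the products of the signs of the functional equations are equal.  The products of the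
local signs at `T` are equal because of the relation modulo squares.
-/

namespace Pool.Agent.GJ

open NumberField IsDedekindDomain Pool.Agent.HWR Pool.Agent.QD Pool.Agent.H73.AL Pool.Agent.H73.DU
  Pool.Agent.MD

private theorem x_id {f g : ℂ → ℂ} (hf : Differentiable ℂ f) (hg : Differentiable ℂ g)
    (h : ∀ s : ℂ, 3 / 2 < s.re → f s = g s) : f = g := by
  have hf' : AnalyticOnNhd ℂ f Set.univ := hf.differentiableOn.analyticOnNhd isOpen_univ
  have hg' : AnalyticOnNhd ℂ g Set.univ := hg.differentiableOn.analyticOnNhd isOpen_univ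
  refine hf'.eq_of_eventuallyEq hg' (z₀ := 3) ?_
  have hU : {s : ℂ | 3 / 2 < s.re} ∈ nhds (3 : ℂ) := by
    refine (isOpen_lt continuous_const Complex.continuous_re).mem_nhds ?_
    change (3 / 2 : ℝ) < (3 : ℂ).re
    norm_num
  exact Filter.eventually_of_mem hU h

/-- the product over the squares -/
private theorem x_sq {T : Finset ℕ} (D : LocData T) {a : ℕ → ℝ} (C : List NF)
    (hC : ∀ X ∈ C, HWpm D a X.F) :
    ∃ P : ℂ → ℂ, Differentiable ℂ P ∧ (∀ s, P s = P (2 - s)) ∧
      ∀ s : ℂ, 3 / 2 < s.re → P s = (C.map fun X => D.Lam a X.F s).prod ^ 2 := by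
  induction C with
  | nil => exact ⟨fun _ => 1, differentiable_const _, fun _ => rfl, fun s _ => by simp⟩
  | cons X C ih =>
    obtain ⟨P, h1, h2, h3⟩ := ih fun X' hX' => hC X' (List.mem_cons_of_mem _ hX')
    obtain ⟨Q, g1, -, g2, g3⟩ := hC X List.mem_cons_self
    refine ⟨fun s => Q s ^ 2 * P s, (g1.pow 2).mul h1, fun s => ?_, fun s hs => ?_⟩
    · change Q s ^ 2 * P s = Q (2 - s) ^ 2 * P (2 - s)
      rw [h2 s]
      rcases g2 with g2 | g2 <;> rw [g2 s]
      rw [neg_sq]
    · change Q s ^ 2 * P s = _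
      rw [List.map_cons, List.prod_cons, g3 s hs, h3 s hs, mul_pow]

/-- the product of the completed functions over a list, with the factors at `T` on the other side -/
private theorem x_key {T : Finset ℕ} (D : LocData T) (hTp : ∀ p ∈ T, p.Prime) {a : ℕ → ℝ}
    (C : List NF) {s : ℂ} (hs : 3 / 2 < s.re) :
    (C.map fun F => D.Lam a F.F s).prod * (C.map fun F => D.pl F.F s).prod =
      ((((C.map fun F => D.A F.F).prod : ℝ)) : ℂ) ^ (s / 2) *
        gam1 s ^ (C.map fun F => Module.finrank ℚ F.F).sum *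
        (C.map fun F => LT F.F a T s).prod := by
  induction C with
  | nil => simp
  | cons F C ih =>
    simp only [List.map_cons, List.prod_cons, List.sum_cons]
    have hpos : 0 ≤ (C.map fun F => D.A F.F).prod := by
      apply List.prod_nonneg
      intro x hx
      obtain ⟨F', _, rfl⟩ := List.mem_map.1 hx
      exact (A_pos D F'.F).le
    have hpl : D.pl F.F s ≠ 0 := pl_ne D hTp F.F (by linarith)
    have e1 : D.Lam a F.F s * D.pl F.F s =
        ((D.A F.F : ℝ) : ℂ) ^ (s / 2) * gam1 s ^ Module.finrank ℚ F.F * LT F.F a T s := by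
      unfold LocData.Lam
      field_simp
    rw [Complex.ofReal_mul, Complex.mul_cpow_ofReal_nonneg (A_pos D F.F).le hpos, pow_add,
      mul_mul_mul_comm, e1, ih]
    ring

private theorem x_pl {T : Finset ℕ} (D : LocData T) (hTp : ∀ p ∈ T, p.Prime) (F : Type) [Field F]
    [NumberField F] : Differentiable ℂ fun s => D.pl F s := by
  classical
  unfold LocData.pl
  refine Differentiable.fun_finsetProd fun p hp => ?_
  have hpp := hTp p hp
  have := Fact.mk hpp
  simp only [hpp, dif_pos]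
  have h1 : Differentiable ℂ fun s : ℂ => (p : ℂ) ^ (-s) := by
    intro s
    refine DifferentiableAt.const_cpow differentiableAt_id.neg (Or.inl ?_)
    exact_mod_cast hpp.ne_zero
  exact (Polynomial.differentiable _).comp h1

private theorem x_pls {T : Finset ℕ} (D : LocData T) (hTp : ∀ p ∈ T, p.Prime) (C : List NF) :
    Differentiable ℂ fun s => (C.map fun F => D.pl F.F s).prod := by
  induction C with
  | nil => simp
  | cons F C ih =>
    simp only [List.map_cons, List.prod_cons]
    exact (x_pl D hTp F.F).mul ih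

private theorem x_plne {T : Finset ℕ} (D : LocData T) (hTp : ∀ p ∈ T, p.Prime) (C : List NF)
    {s : ℂ} (hs : 1 / 2 < s.re) : (C.map fun F => D.pl F.F s).prod ≠ 0 := by
  refine List.prod_ne_zero fun h0 => ?_
  obtain ⟨X, _, hX⟩ := List.mem_map.1 h0
  exact pl_ne D hTp X.F hs hX

private theorem x_A {T : Finset ℕ} (D : LocData T) (C : List NF) :
    0 < (C.map fun F => D.A F.F).prod := by
  apply List.prod_pos
  intro x hx
  obtain ⟨F', _, rfl⟩ := List.mem_map.1 hx
  exact A_pos D F'.F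

private theorem x_w {T : Finset ℕ} (D : LocData T) (C : List NF) :
    (C.map fun F => D.w F.F).prod =
      (-1) ^ ((C.map fun F => InfinitePlace.nrRealPlaces F.F).sum +
        (C.map fun F => InfinitePlace.nrComplexPlaces F.F).sum) *
        (((C.map fun F => D.sg F.F).prod : ℤ) : ℂ) := by
  induction C with
  | nil => simp
  | cons F C ih =>
    simp only [List.map_cons, List.prod_cons, List.sum_cons, ih]
    unfold LocData.w
    push_cast
    simp only [pow_add]
    ring

/-- `lemX`: the exact functional equation from a relation at the procyclic subgroups which holds modulo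
squares at the subgroups of the decomposition groups at the primes of `T` -/
theorem lemX {T : Finset ℕ} (hTp : ∀ p ∈ T, p.Prime)
    (hT : ∀ p : ℕ, p.Prime → p < 101 → p ∈ T) (D : LocData T) {a : ℕ → ℝ}
    (ha : ∀ q : ℕ, |a q| ≤ 2 * Real.sqrt q) (K : NF) (A B C E Z Z' : List NF)
    (hK : HWpm D a K.F) (hAB : ∀ X ∈ A ++ B, D.HW a X.F) (hCE : ∀ X ∈ C ++ E, HWpm D a X.F)
    (h0 : Rel ∅ (K :: (A ++ (C ++ C))) (B ++ (E ++ E)))
    (h1 : ∀ l ∈ T, ∀ _ : Fact l.Prime, ∀ U : Subgroup GQ, U ≤ decomp ℚ_[l] (emb l) →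
      ((K :: (A ++ (C ++ C)) ++ (Z ++ Z)).map fun F => mark F.F U).sum =
        ((B ++ (E ++ E) ++ (Z' ++ Z')).map fun F => mark F.F U).sum) : D.HW a K.F := by
  obtain ⟨LK, k1, k2, k3, k4⟩ := hK
  obtain ⟨PA, a1, -, a3, a4, -⟩ := list_HW D hTp hT ha A
    fun X hX => hAB X (List.mem_append.2 (Or.inl hX))
  obtain ⟨PB, b1, -, b3, b4, -⟩ := list_HW D hTp hT ha B
    fun X hX => hAB X (List.mem_append.2 (Or.inr hX))
  obtain ⟨PC, c1, c3, c4⟩ := x_sq D (a := a) C fun X hX => hCE X (List.mem_append.2 (Or.inl hX))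
  obtain ⟨PE, e1, e3, e4⟩ := x_sq D (a := a) E fun X hX => hCE X (List.mem_append.2 (Or.inr hX))
  obtain ⟨δ, hδ2, hδ⟩ : ∃ δ : ℂ, δ ^ 2 = 1 ∧ ∀ s, LK s = δ * LK (2 - s) := by
    rcases k3 with k3 | k3
    · exact ⟨1, by norm_num, fun s => by rw [one_mul]; exact k3 s⟩
    · exact ⟨-1, by norm_num, fun s => by rw [neg_one_mul]; exact k3 s⟩
  obtain ⟨L1, hL1⟩ : ∃ L1, L1 = K :: (A ++ (C ++ C)) := ⟨_, rfl⟩
  obtain ⟨L2, hL2⟩ : ∃ L2, L2 = B ++ (E ++ E) := ⟨_, rfl⟩
  rw [← hL1, ← hL2] at h0 h1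
  -- the two entire functions
  obtain ⟨F1, hF1⟩ : ∃ F1 : ℂ → ℂ, F1 = fun s => LK s * (PA s * PC s) := ⟨_, rfl⟩
  obtain ⟨F2, hF2⟩ : ∃ F2 : ℂ → ℂ, F2 = fun s => PB s * PE s := ⟨_, rfl⟩
  have d1 : Differentiable ℂ F1 := by
    rw [hF1]
    exact k1.mul (a1.mul c1)
  have d2 : Differentiable ℂ F2 := by
    rw [hF2]
    exact b1.mul e1
  have v1 : ∀ s : ℂ, 3 / 2 < s.re → F1 s = (L1.map fun F => D.Lam a F.F s).prod := by
    intro s hs
    rw [hF1, hL1]
    simp only [List.map_cons, List.map_append, List.prod_cons, List.prod_append]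
    rw [k4 s hs, a4 s hs, c4 s hs, sq]
  have v2 : ∀ s : ℂ, 3 / 2 < s.re → F2 s = (L2.map fun F => D.Lam a F.F s).prod := by
    intro s hs
    rw [hF2, hL2]
    simp only [List.map_append, List.prod_append]
    rw [b4 s hs, e4 s hs, sq]
  obtain ⟨wA, hwA⟩ : ∃ wA : ℂ, wA = (A.map fun F => D.w F.F).prod := ⟨_, rfl⟩
  obtain ⟨wB, hwB⟩ : ∃ wB : ℂ, wB = (B.map fun F => D.w F.F).prod := ⟨_, rfl⟩
  have wA2 : wA ^ 2 = 1 := by rw [hwA]; exact w_list D A
  have wB2 : wB ^ 2 = 1 := by rw [hwB]; exact w_list D B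
  have g1 : ∀ s, F1 s = δ * wA * F1 (2 - s) := by
    intro s
    rw [hF1]
    change LK s * (PA s * PC s) = δ * wA * (LK (2 - s) * (PA (2 - s) * PC (2 - s)))
    rw [hδ s, a3 s, c3 s, ← hwA]
    ring
  have g2 : ∀ s, F2 s = wB * F2 (2 - s) := by
    intro s
    rw [hF2]
    change PB s * PE s = wB * (PB (2 - s) * PE (2 - s))
    rw [b3 s, e3 s, ← hwB]
    ring
  -- the factors at `T`
  obtain ⟨q1, hq1⟩ : ∃ q1 : ℂ → ℂ, q1 = fun s => (L1.map fun F => D.pl F.F s).prod *
    (((L2.map fun F => D.A F.F).prod : ℝ) : ℂ) ^ (s / 2) := ⟨_, rfl⟩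
  obtain ⟨q2, hq2⟩ : ∃ q2 : ℂ → ℂ, q2 = fun s => (L2.map fun F => D.pl F.F s).prod *
    (((L1.map fun F => D.A F.F).prod : ℝ) : ℂ) ^ (s / 2) := ⟨_, rfl⟩
  have hc : ∀ L : List NF, Differentiable ℂ fun s : ℂ =>
      ((((L.map fun F => D.A F.F).prod : ℝ)) : ℂ) ^ (s / 2) := by
    intro L s
    refine DifferentiableAt.const_cpow (differentiableAt_id.div_const 2) (Or.inl ?_)
    exact_mod_cast (x_A D L).ne'
  have hc0 : ∀ (L : List NF) (s : ℂ), ((((L.map fun F => D.A F.F).prod : ℝ)) : ℂ) ^ (s / 2) ≠ 0 := by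
    intro L s
    rw [Ne, Complex.cpow_eq_zero_iff]
    intro h
    exact (x_A D L).ne' (by exact_mod_cast h.1)
  have dq1 : Differentiable ℂ q1 := by
    rw [hq1]
    exact (x_pls D hTp L1).mul (hc L2)
  have dq2 : Differentiable ℂ q2 := by
    rw [hq2]
    exact (x_pls D hTp L2).mul (hc L1)
  have nq1 : ∀ s : ℂ, 1 / 2 < s.re → q1 s ≠ 0 := by
    intro s hs
    rw [hq1]
    exact mul_ne_zero (x_plne D hTp L1 hs) (hc0 L2 s)
  have nq2 : ∀ s : ℂ, 1 / 2 < s.re → q2 s ≠ 0 := by
    intro s hs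
    rw [hq2]
    exact mul_ne_zero (x_plne D hTp L2 hs) (hc0 L1 s)
  have heq : (fun s => F1 s * q1 s) = fun s => F2 s * q2 s := by
    refine x_id (d1.mul dq1) (d2.mul dq2) fun s hs => ?_
    have m1 := x_key D hTp (a := a) L1 hs
    have m2 := x_key D hTp (a := a) L2 hs
    rw [rel_finrank h0, rel_LT0 h0 ha hTp hT hs] at m1
    change F1 s * q1 s = F2 s * q2 s
    rw [v1 s hs, v2 s hs, hq1, hq2]
    change (L1.map fun F => D.Lam a F.F s).prod * ((L1.map fun F => D.pl F.F s).prod *
      (((L2.map fun F => D.A F.F).prod : ℝ) : ℂ) ^ (s / 2)) =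
      (L2.map fun F => D.Lam a F.F s).prod * ((L2.map fun F => D.pl F.F s).prod *
      (((L1.map fun F => D.A F.F).prod : ℝ) : ℂ) ^ (s / 2))
    rw [← mul_assoc, ← mul_assoc, m1, m2]
    ring
  have heq' : ∀ s, F1 s * q1 s = F2 s * q2 s := fun s => congrFun heq s
  -- the function `G`
  have hG : (fun s => δ * wA * (q1 (2 - s) * q2 s)) = fun s => wB * (q1 s * q2 (2 - s)) := by
    have dd : Differentiable ℂ fun s : ℂ => (2 : ℂ) - s := (differentiable_const 2).sub differentiable_id
    refine x_id ((differentiable_const _).mul ((dq1.comp dd).mul dq2))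
      ((differentiable_const _).mul (dq1.mul (dq2.comp dd))) fun s hs => ?_
    have n1 : F1 s ≠ 0 := by
      rw [v1 s hs]
      refine List.prod_ne_zero fun h => ?_
      obtain ⟨X, _, hX⟩ := List.mem_map.1 h
      exact Lam_ne D hTp hT ha X.F hs hX
    have r1 := heq' s
    have r2 := heq' (2 - s)
    have s1 := g1 s
    have s2 := g2 s
    change δ * wA * (q1 (2 - s) * q2 s) = wB * (q1 s * q2 (2 - s))
    refine mul_left_cancel₀ n1 ?_
    have t1 : F1 (2 - s) = δ * wA * F1 s := by
      rw [s1]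
      linear_combination (-F1 (2 - s)) * (δ ^ 2 * wA2 + hδ2)
    have t2 : F2 (2 - s) = wB * F2 s := by
      rw [s2]
      linear_combination (-F2 (2 - s)) * wB2
    rw [t1, t2] at r2
    linear_combination q2 s * r2 - wB * q2 (2 - s) * r1
  have hη : δ * wA = wB := by
    have h2 := congrFun hG 1
    have h3 : (2 : ℂ) - 1 = 1 := by norm_num
    simp only [h3] at h2
    have n1 := nq1 1 (by norm_num)
    have n2 := nq2 1 (by norm_num)
    exact mul_right_cancel₀ (mul_ne_zero n1 n2) h2
  -- the signs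
  have hw1 := x_w D L1
  have hw2 := x_w D L2
  have hsg : (L1.map fun F => D.sg F.F).prod = (L2.map fun F => D.sg F.F).prod := by
    have h2 := rel_sg0 D (A := L1 ++ (Z ++ Z)) (B := L2 ++ (Z' ++ Z')) (fun l hl hf U hU => by
      exact h1 l hl hf U hU)
    simp only [List.map_append, List.prod_append] at h2
    rwa [sg_list, sg_list, mul_one, mul_one] at h2
  rw [rel_real h0, rel_complex h0, hsg, ← hw2] at hw1
  have hKw : D.w K.F * wA = wB := by
    have h2 := hw1
    rw [hL1, hL2] at h2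
    simp only [List.map_cons, List.map_append, List.prod_cons, List.prod_append] at h2
    rw [← hwA, ← hwB, ← sq, ← sq, w_list D C, w_list D E, mul_one, mul_one] at h2
    exact h2
  have hδw : δ = D.w K.F := by
    have hA0 : wA ≠ 0 := by
      intro h
      rw [h] at wA2
      norm_num at wA2
    exact mul_right_cancel₀ hA0 (hη.trans hKw.symm)
  exact ⟨LK, k1, k2, fun s => by rw [← hδw]; exact hδ s, k4⟩

end Pool.Agent.GJ
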