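import Pool.Agent.GJ.X.P1
import Pool.Agent.GJ.X.Lem

/-!
# GJ/X-Desc: from the fields with local degrees divisible by `2 ^ j` to all fields

`AlgC i c` is the algebraic theorem at level `i` (a relation for every field with local degrees divisible
by `2 ^ i`); `desc` is the step from `i + 1` to `i`, `desc_all` the downward induction.
-/

namespace Pool.Agent.GJ

open NumberField IsDedekindDomain Pool.Agent.HWR Pool.Agent.QD Pool.Agent.H73.AL Pool.Agent.H73.DU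
  Pool.Agent.MD Pool.Agent.LD

/-- the fields for which the exact functional equation is known: local degrees divisible by `2 ^ (i + 1)`,
totally real, or quadratic over a field with local degrees divisible by `2 ^ i` -/
def Exa (i : ℕ) (V T : Finset ℕ) (X : NF) : Prop :=
  DvV (i + 1) V T X.F ∨ InfinitePlace.nrComplexPlaces X.F = 0 ∨
    ∃ (Y : NF) (_ : Algebra Y.F X.F), Module.finrank Y.F X.F = 2 ∧ DvV i V T Y.F

/-- the algebraic theorem: every field with local degrees divisible by `2 ^ i` is related to fields `A`,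
`B` in `Exa` and to fields `C`, `E` counted twice; at the subgroups of the decomposition groups at `T` only
modulo squares -/
def AlgC (i : ℕ) (c : ℕ → ℕ) : Prop :=
  ∀ (T : Finset ℕ) (_ : ∀ p ∈ T, p.Prime) (_ : 2 ∈ T) (V : Finset ℕ) (K : NF), DvV i V T K.F →
    ∃ A B C E Z Z' : List NF,
      Rel ∅ (K :: (A ++ (C ++ C))) (B ++ (E ++ E)) ∧
      (∀ l ∈ T, ∀ _ : Fact l.Prime, ∀ U : Subgroup GQ, U ≤ decomp ℚ_[l] (emb l) →
        ((K :: (A ++ (C ++ C)) ++ (Z ++ Z)).map fun F => mark F.F U).sum =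
          ((B ++ (E ++ E) ++ (Z' ++ Z')).map fun F => mark F.F U).sum) ∧
      (∀ X ∈ A ++ B, Module.finrank ℚ K.F ∣ Module.finrank ℚ X.F ∧
        Module.finrank ℚ X.F ≤ c (Module.finrank ℚ K.F) ∧ Exa i V T X) ∧
      ∀ X ∈ C ++ E, Module.finrank ℚ K.F ∣ Module.finrank ℚ X.F ∧
        Module.finrank ℚ X.F ≤ c (Module.finrank ℚ K.F) ∧ DvV i V T X.F

theorem desc {T : Finset ℕ} (hTp : ∀ p ∈ T, p.Prime)
    (hT : ∀ p : ℕ, p.Prime → p < 101 → p ∈ T) (D : LocData T) {a : ℕ → ℝ}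
    (ha : ∀ q : ℕ, |a q| ≤ 2 * Real.sqrt q) (hfr : FrobRel T a) (V : Finset ℕ) {i : ℕ} {c : ℕ → ℕ}
    (hc : AlgC i c) (n N N' : ℕ) (hN : ∀ m : ℕ, m ≤ N → 4 * c m ≤ N') (hN4 : 4 * N ≤ N')
    (HR : ∀ F : NF, InfinitePlace.nrComplexPlaces F.F = 0 → n ∣ Module.finrank ℚ F.F →
      Module.finrank ℚ F.F ≤ N' → D.HW a F.F)
    (H : ∀ F : NF, n ∣ Module.finrank ℚ F.F → Module.finrank ℚ F.F ≤ N' →
      DvV (i + 1) V T F.F → D.HW a F.F)
    (K : NF) (hKn : n ∣ Module.finrank ℚ K.F) (hKN : Module.finrank ℚ K.F ≤ N)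
    (hK : DvV i V T K.F) : D.HW a K.F := by
  obtain ⟨A, B, C, E, Z, Z', h0, h1, h2, h3⟩ := hc T hTp (hT 2 Nat.prime_two (by norm_num)) V K hK
  have hcK := hN _ hKN
  have hpm : ∀ X : NF, n ∣ Module.finrank ℚ X.F → 4 * Module.finrank ℚ X.F ≤ N' →
      DvV i V T X.F → HWpm D a X.F := fun X hX1 hX2 hX3 =>
    (p1_dv hTp hT D ha hfr V i n N' H X.F hX3 hX2 (hX1.mul_left 2)).2 hX1
  refine lemX hTp hT D ha K A B C E Z Z' (hpm K hKn (by omega) hK) ?_ ?_ h0 h1
  · intro X hX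
    obtain ⟨g1, g2, g3⟩ := h2 X hX
    rcases g3 with g3 | g3 | ⟨Y, inst, g4, g5⟩
    · exact H X (hKn.trans g1) (by omega) g3
    · exact HR X g3 (hKn.trans g1) (by omega)
    · have g6 : Module.finrank ℚ X.F = 2 * Module.finrank ℚ Y.F := by
        rw [← Module.finrank_mul_finrank ℚ Y.F X.F, g4, mul_comm]
      exact (p1_dv hTp hT D ha hfr V i n N' H Y.F g5 (by omega)
        (by rw [← g6]; exact hKn.trans g1)).1 X.F g4
  · intro X hX
    obtain ⟨g1, g2, g3⟩ := h3 X hX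
    exact hpm X (hKn.trans g1) (by omega) g3

/-- the bound for the degrees after `j` steps -/
def bJ (c : ℕ → ℕ → ℕ) : ℕ → ℕ → ℕ
  | 0, N => N
  | i + 1, N => 4 * (∑ m ∈ Finset.range (bJ c i N + 1), c i m) + 4 * bJ c i N

theorem bJ_le (c : ℕ → ℕ → ℕ) (N i : ℕ) : bJ c i N ≤ bJ c (i + 1) N := by
  change _ ≤ 4 * (∑ m ∈ Finset.range (bJ c i N + 1), c i m) + 4 * bJ c i N
  omega

theorem bJ_mono (c : ℕ → ℕ → ℕ) (N : ℕ) {i j : ℕ} (h : i ≤ j) : bJ c i N ≤ bJ c j N :=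
  monotone_nat_of_le_succ (f := fun i => bJ c i N) (bJ_le c N) h

theorem le_bJ (c : ℕ → ℕ → ℕ) (N j : ℕ) : N ≤ bJ c j N := bJ_mono c N (Nat.zero_le j)

theorem desc_all {T : Finset ℕ} (hTp : ∀ p ∈ T, p.Prime)
    (hT : ∀ p : ℕ, p.Prime → p < 101 → p ∈ T) (D : LocData T) {a : ℕ → ℝ}
    (ha : ∀ q : ℕ, |a q| ≤ 2 * Real.sqrt q) (hfr : FrobRel T a) (V : Finset ℕ) {c : ℕ → ℕ → ℕ}
    (hc : ∀ i, AlgC i (c i)) (n N j : ℕ)
    (HR : ∀ F : NF, InfinitePlace.nrComplexPlaces F.F = 0 → n ∣ Module.finrank ℚ F.F →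
      Module.finrank ℚ F.F ≤ bJ c j N → D.HW a F.F)
    (H : ∀ F : NF, n ∣ Module.finrank ℚ F.F → Module.finrank ℚ F.F ≤ bJ c j N →
      DvV j V T F.F → D.HW a F.F)
    (K : NF) (hKn : n ∣ Module.finrank ℚ K.F) (hKN : Module.finrank ℚ K.F ≤ N) : D.HW a K.F := by
  have key : ∀ k : ℕ, k ≤ j → ∀ F : NF, n ∣ Module.finrank ℚ F.F →
      Module.finrank ℚ F.F ≤ bJ c (j - k) N → DvV (j - k) V T F.F → D.HW a F.F := by
    intro k
    induction k with
    | zero => exact fun _ => H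
    | succ k ih =>
      intro hk F hF1 hF2 hF3
      have e : j - k = j - (k + 1) + 1 := by omega
      have ih' := ih (by omega)
      rw [e] at ih'
      refine desc hTp hT D ha hfr V (hc (j - (k + 1))) n (bJ c (j - (k + 1)) N)
        (bJ c (j - (k + 1) + 1) N) ?_ ?_ ?_ ih' F hF1 hF2 hF3
      · intro m hm
        have h1 : c (j - (k + 1)) m ≤ ∑ m ∈ Finset.range (bJ c (j - (k + 1)) N + 1),
            c (j - (k + 1)) m :=
          Finset.single_le_sum (f := fun m => c (j - (k + 1)) m) (fun _ _ => Nat.zero_le _)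
            (Finset.mem_range.2 (by omega))
        change _ ≤ 4 * (∑ m ∈ Finset.range (bJ c (j - (k + 1)) N + 1), c (j - (k + 1)) m) +
          4 * bJ c (j - (k + 1)) N
        omega
      · change _ ≤ 4 * (∑ m ∈ Finset.range (bJ c (j - (k + 1)) N + 1), c (j - (k + 1)) m) +
          4 * bJ c (j - (k + 1)) N
        omega
      · intro X hX1 hX2 hX3
        exact HR X hX1 hX2 (hX3.trans (bJ_mono c N (by omega)))
  have h1 := key j le_rfl K hKn
  rw [Nat.sub_self] at h1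
  refine h1 hKN ?_
  intro p _ _ _ w _
  rw [pow_zero]
  exact one_dvd _

end Pool.Agent.GJ
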