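import Pool.Agent.GJ.Bas
import Pool.Agent.GJ.X.Desc
import Pool.Agent.TS.L.Orb
import Pool.Agent.TS.L.Ev
import Pool.Agent.TS.V.Sub

/-!
# GJ/X-Brg: from subgroups to fields

`dvV_iff`: the local degrees of a number field and the indices in the decomposition groups (`card_orb`).
`exa_of_ex`: the field of an exact subgroup is exact.
-/

namespace Pool.Agent.GJ

open NumberField IsDedekindDomain MulAction Pool.Agent.HWR Pool.Agent.QD Pool.Agent.H73.AL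
  Pool.Agent.H73.DU Pool.Agent.MD Pool.Agent.LD Pool.Agent.TS

theorem stb_smul {F : Type} [Field F] (g : GQ) (ψ : F →+* AlgebraicClosure ℚ) :
    stb (g • ψ) = cj g⁻¹ (stb ψ) := by
  ext x
  rw [mem_cj_conj, inv_inv]
  unfold stb
  rw [mem_stabilizer_iff, mem_stabilizer_iff, mul_smul, mul_smul, inv_smul_eq_iff]

theorem relIndex_loc (P : Pl) {F : Type} [Field F] [NumberField F]
    (ψ : F →+* AlgebraicClosure ℚ) {w : HeightOneSpectrum (𝓞 F)}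
    (hw : IsPl P.p (P.g⁻¹ • ψ) w) : (stb ψ).relIndex P.D = locDeg ℚ w := by
  have h2 := card_orb P.p (P.g⁻¹ • ψ) hw
  have h3 : Nat.card {χ : F →+* AlgebraicClosure ℚ //
      ∃ d ∈ decomp ℚ_[P.p] (emb P.p), d • (P.g⁻¹ • ψ) = χ} =
      (MulAction.stabilizer (decomp ℚ_[P.p] (emb P.p)) (P.g⁻¹ • ψ)).index := by
    rw [MulAction.index_stabilizer, ← Nat.card_coe_set_eq]
    refine Nat.card_congr (Equiv.subtypeEquivRight fun χ => ?_)
    constructor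
    · rintro ⟨d, hd, h⟩
      exact ⟨⟨d, hd⟩, h⟩
    · rintro ⟨d, h⟩
      exact ⟨d.1, d.2, h⟩
  have h4 : MulAction.stabilizer (decomp ℚ_[P.p] (emb P.p)) (P.g⁻¹ • ψ) =
      (stb (P.g⁻¹ • ψ)).subgroupOf (decomp ℚ_[P.p] (emb P.p)) := by
    ext x
    rw [Subgroup.mem_subgroupOf]
    rfl
  rw [← h2, h3, h4, stb_smul, inv_inv]
  change _ = (cj P.g (stb ψ)).relIndex (decomp ℚ_[P.p] (emb P.p))
  rw [cj_relIndex]
  rfl

theorem dvV_iff {i : ℕ} {V T : Finset ℕ} {F : Type} [Field F] [NumberField F]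
    (ψ : F →+* AlgebraicClosure ℚ) :
    DvV i V T F ↔ ∀ P : Pl, Pin V T P → 2 ^ i ∣ (stb ψ).relIndex P.D := by
  constructor
  · intro h P hP
    obtain ⟨w, hw⟩ := exists_isPl P.p (P.g⁻¹ • ψ)
    rw [relIndex_loc P ψ hw]
    exact h P.p hP.1 P.hp.out hP.2 w (isPl_mem hw)
  · intro h p hpV hp hpT w hw
    have : Fact p.Prime := ⟨hp⟩
    obtain ⟨ψ1, h1⟩ := exists_emb p F w hw
    obtain ⟨g, hg⟩ := trans_emb F ψ ψ1
    have h2 : IsPl (Pl.mk p g⁻¹).p ((Pl.mk p g⁻¹).g⁻¹ • ψ) w := by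
      change IsPl p (g⁻¹⁻¹ • ψ) w
      rw [inv_inv, hg]
      exact h1
    have h3 := relIndex_loc (Pl.mk p g⁻¹) ψ h2
    rw [← h3]
    exact h (Pl.mk p g⁻¹) ⟨hpV, hpT⟩

theorem ci_iff {i : ℕ} {V T : Finset ℕ} {F : Type} [Field F] [NumberField F]
    (ψ : F →+* AlgebraicClosure ℚ) : Ci V T i (stb ψ) ↔ DvV i V T F := by
  rw [dvV_iff ψ]
  exact ⟨fun h => h.2, fun h => ⟨stab_open F ψ, h⟩⟩

end Pool.Agent.GJ
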