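import Pool.Agent.GJ.X.Brg

/-!
# GJ/X-Exx: the field of an exact subgroup is exact
-/

namespace Pool.Agent.GJ

open NumberField IsDedekindDomain MulAction Pool.Agent.HWR Pool.Agent.QD Pool.Agent.H73.AL
  Pool.Agent.H73.DU Pool.Agent.MD Pool.Agent.LD Pool.Agent.TS

theorem index_stb {F : Type} [Field F] [NumberField F] (ψ : F →+* AlgebraicClosure ℚ) :
    (stb ψ).index = Module.finrank ℚ F := by
  have h3 := congrFun (mark_eq_pc F ψ) ⊥
  rw [pc_bot, mark, pch_bot] at h3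
  have h4 := NumberField.Embeddings.card F (AlgebraicClosure ℚ)
  rw [← Nat.card_eq_fintype_card] at h4
  rw [h4] at h3
  exact_mod_cast h3.symm

private theorem ex_alg (inst : Algebra ℚ (AlgebraicClosure ℚ)) :
    IsAlgClosure ℚ (AlgebraicClosure ℚ) := by
  have h : inst = AlgebraicClosure.instAlgebra ℚ := Subsingleton.elim _ _
  subst h
  infer_instance

private theorem ex_i : ∃ _ : AlgebraicClosure ℚ →+* ℂ, True := by
  have h1 : IsAlgClosure ℚ (AlgebraicClosure ℚ) := ex_alg inferInstance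
  have h2 : Algebra.IsAlgebraic ℚ (AlgebraicClosure ℚ) := h1.isAlgebraic
  let i : AlgebraicClosure ℚ →ₐ[ℚ] ℂ := IsAlgClosed.lift
  exact ⟨i.toRingHom, trivial⟩

private theorem ex_conj (ι : AlgebraicClosure ℚ →+* ℂ) :
    ∃ c : GQ, ∀ x, ι (c x) = starRingEnd ℂ (ι x) := by
  have h1 : IsAlgClosure ℚ (AlgebraicClosure ℚ) := ex_alg inferInstance
  have h2 : Algebra.IsAlgebraic ℚ (AlgebraicClosure ℚ) := h1.isAlgebraic
  have h3 : Normal ℚ (AlgebraicClosure ℚ) := IsAlgClosure.normal ℚ _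
  let _ : Algebra (AlgebraicClosure ℚ) ℂ := ι.toAlgebra
  have : IsScalarTower ℚ (AlgebraicClosure ℚ) ℂ :=
    IsScalarTower.of_algebraMap_eq' (Subsingleton.elim _ _)
  let χ : ℂ ≃ₐ[ℚ] ℂ := AlgEquiv.ofRingEquiv (f := starRingAut) (fun r => by simp)
  refine ⟨χ.restrictNormal (AlgebraicClosure ℚ), ?_⟩
  intro x
  exact AlgEquiv.restrictNormal_commutes χ (AlgebraicClosure ℚ) x

private theorem ex_lift {F : Type} [Field F] [NumberField F] (ψ : F →+* AlgebraicClosure ℚ)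
    (σ : F →+* ℂ) : ∃ ι : AlgebraicClosure ℚ →+* ℂ, ι.comp ψ = σ := by
  classical
  obtain ⟨i, -⟩ := ex_i
  have hinj : Function.Injective (fun φ : F →+* AlgebraicClosure ℚ => i.comp φ) := by
    intro φ ψ h
    ext x
    have := RingHom.congr_fun h x
    exact i.injective this
  have hbij : Function.Bijective (fun φ : F →+* AlgebraicClosure ℚ => i.comp φ) := by
    rw [Fintype.bijective_iff_injective_and_card]
    refine ⟨hinj, ?_⟩
    rw [NumberField.Embeddings.card F (AlgebraicClosure ℚ), NumberField.Embeddings.card F ℂ]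
  obtain ⟨φ, hφ⟩ := hbij.2 σ
  obtain ⟨g, hg⟩ := trans_emb F ψ φ
  refine ⟨i.comp (g : AlgebraicClosure ℚ →+* AlgebraicClosure ℚ), ?_⟩
  rw [← hφ]
  change _ = i.comp φ
  rw [← hg]
  ext x
  rfl

theorem tr_complex {F : Type} [Field F] [NumberField F] (ψ : F →+* AlgebraicClosure ℚ)
    (h : TR (stb ψ)) : InfinitePlace.nrComplexPlaces F = 0 := by
  classical
  have h1 : ∀ σ : F →+* ℂ, ComplexEmbedding.IsReal σ := by
    intro σ
    obtain ⟨ι, rfl⟩ := ex_lift ψ σ
    obtain ⟨c, hc⟩ := ex_conj ι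
    have h2 : c • ψ = ψ := mem_stabilizer_iff.1 (h ι c hc)
    rw [ComplexEmbedding.isReal_iff]
    ext x
    change starRingEnd ℂ (ι (ψ x)) = ι (ψ x)
    rw [← hc]
    have h3 : c (ψ x) = ψ x := RingHom.congr_fun h2 x
    rw [h3]
  unfold InfinitePlace.nrComplexPlaces
  rw [Fintype.card_eq_zero_iff]
  refine ⟨fun w => ?_⟩
  have h2 := w.2
  rw [InfinitePlace.isComplex_iff] at h2
  exact h2 (h1 _)

theorem exa_of_ex {V T : Finset ℕ} {i : ℕ} {H : Subgroup GQ} (h : Ex V T i H) (X : NF)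
    (ψ : X.F →+* AlgebraicClosure ℚ) (hψ : stb ψ = H) : Exa i V T X := by
  obtain ⟨-, h | h | ⟨H', h1, h2, h3⟩⟩ := h
  · left
    rw [← ci_iff ψ, hψ]
    exact h
  · right
    left
    exact tr_complex ψ (hψ ▸ h)
  · right
    right
    obtain ⟨Y, ψ', g1, g2, g3⟩ := exists_nf H' h1.1
    obtain ⟨j, hj⟩ := sub_of_stb Y X ψ' ψ (by rw [hψ, g1]; exact h2)
    let alg : Algebra Y.F X.F := j.toAlgebra
    refine ⟨Y, alg, ?_, ?_⟩
    · have h4 : Module.finrank ℚ Y.F * Module.finrank Y.F X.F = Module.finrank ℚ X.F :=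
        Module.finrank_mul_finrank ℚ Y.F X.F
      have h5 := Subgroup.relIndex_mul_index h2
      rw [h3, ← hψ, index_stb ψ, ← g1, index_stb ψ'] at h5
      have h6 : 0 < Module.finrank ℚ Y.F := Module.finrank_pos
      refine Nat.eq_of_mul_eq_mul_left h6 ?_
      rw [h4, ← h5, mul_comm]
    · rw [← ci_iff ψ', g1]
      exact h1

end Pool.Agent.GJ
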