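import Pool.Agent.GJ.X.Desc
import Pool.Agent.TS.B.Pol

/-!
# GJ/X-Fin: the bounded theorem, with finitely many exceptions and poles

As TS/B/Fin and TS/B/Pol, with local degrees divisible by `2 ^ i`.
-/

namespace Pool.Agent.GJ

open NumberField IsDedekindDomain Pool.Agent.HWR Pool.Agent.QD Pool.Agent.H73.AL Pool.Agent.LD
  Pool.Agent.TS

theorem DvV.mono {i j : ℕ} (hij : i ≤ j) {V T : Finset ℕ} {F : Type} [Field F] [NumberField F]
    (h : DvV j V T F) : DvV i V T F := fun p hp hpp hpT w hw =>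
  (pow_dvd_pow 2 hij).trans (h p hp hpp hpT w hw)

theorem DvV.ev {i : ℕ} (hi : 1 ≤ i) {V T : Finset ℕ} {F : Type} [Field F] [NumberField F]
    (h : DvV i V T F) : EvV V T F := fun p hp hpp hpT w hw => by
  have h1 := (h.mono hi) p hp hpp hpT w hw
  rwa [pow_one] at h1

/-- the Hasse-Weil conjecture over all fields of degree `n` from fields of bounded degree divisible by
`2 ^ m * n` which are totally real or have local degrees divisible by `2 ^ i` above `V` -/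
theorem v_main {c' : ℕ → ℕ → ℕ} (hc' : ∀ i, AlgC i (c' i)) : ∃ Bd : ℕ → ℕ → ℕ → ℕ,
    ∀ {T : Finset ℕ} (_ : ∀ p ∈ T, p.Prime)
    (_ : ∀ p : ℕ, p.Prime → p < 101 → p ∈ T) (D : LocData T) (a : ℕ → ℝ)
    (_ : ∀ q : ℕ, |a q| ≤ 2 * Real.sqrt q) (_ : FrobRel T a) (V : Finset ℕ)
    (i n m : ℕ) (_ : D.HW a ℚ)
    (_ : ∀ F : NF, InfinitePlace.nrComplexPlaces F.F = 0 → 2 ^ m * n ∣ Module.finrank ℚ F.F →
      Module.finrank ℚ F.F ≤ Bd i n m → D.HW a F.F)
    (_ : ∀ F : NF, 2 ^ m * n ∣ Module.finrank ℚ F.F → Module.finrank ℚ F.F ≤ Bd i n m →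
      DvV i V T F.F → D.HW a F.F) (K : NF)
    (_ : Module.finrank ℚ K.F = n), D.HW a K.F := by
  classical
  have hex : ∀ M : ℕ, ∃ c : ℕ → ℕ, M ≠ 0 → ∀ (T : Finset ℕ) (K : NF),
    ∃ A B : List NF, (∀ F ∈ A ++ B, Module.finrank ℚ F.F = 1 ∨
      (M ∣ Module.finrank ℚ F.F ∧ Module.finrank ℚ F.F ≤ c (Module.finrank ℚ K.F))) ∧
      Rel T (K :: A) B := by
    intro M
    by_cases hM : M = 0
    · exact ⟨fun _ => 0, fun h => absurd hM h⟩
    · obtain ⟨c, hc⟩ := alg_marksB M hM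
      exact ⟨c, fun _ => hc⟩
  choose c hc using hex
  refine ⟨fun i n m => bJ c' i ((∑ i ∈ Finset.range (m + 1), c (2 ^ m * n) (2 ^ i * n)) +
    2 ^ m * n), ?_⟩
  intro T hTp hT D a ha hfr V i n m hQ hR hE K hK
  obtain ⟨mx, hmx⟩ : ∃ mx, mx = (∑ i ∈ Finset.range (m + 1), c (2 ^ m * n) (2 ^ i * n)) +
    2 ^ m * n := ⟨_, rfl⟩
  have hn : 0 < n := by
    rw [← hK]
    exact Module.finrank_pos
  -- the fields of degree divisible by `2 ^ m * n`
  have top : ∀ X : NF, 2 ^ m * n ∣ Module.finrank ℚ X.F → Module.finrank ℚ X.F ≤ mx →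
      D.HW a X.F := by
    intro X hX hXm
    refine desc_all hTp hT D ha hfr V hc' (2 ^ m * n) mx i (fun F hF0 hFn hFb => ?_)
      (fun F hF1 hF2 hF3 => ?_) X hX hXm
    · refine hR F hF0 hFn ?_
      rw [hmx] at hFb
      exact hFb
    · refine hE F hF1 ?_ hF3
      rw [hmx] at hF2
      exact hF2
  -- descending
  have chain : ∀ i : ℕ, i ≤ m → ∀ X : NF, Module.finrank ℚ X.F = 2 ^ (m - i) * n →
      D.HW a X.F := by
    intro i
    induction i with
    | zero =>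
      intro _ X hX
      rw [Nat.sub_zero] at hX
      exact top X (by rw [hX]) (by rw [hX, hmx]; exact Nat.le_add_left _ _)
    | succ i ih =>
      intro hi X hX
      obtain ⟨A, B, hAB, hrel⟩ := hc (2 ^ m * n) (mul_ne_zero (pow_ne_zero _ two_ne_zero) hn.ne')
        T X
      have hm : ∀ F ∈ A ++ B, D.HW a F.F := by
        intro F hF
        rcases hAB F hF with h1 | ⟨h1, h2⟩
        · exact HW_one D hTp hT ha hQ F.F h1
        · refine top F h1 (h2.trans ?_)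
          rw [hX, hmx]
          refine le_trans ?_ (Nat.le_add_right _ _)
          exact Finset.single_le_sum (f := fun i => c (2 ^ m * n) (2 ^ i * n))
            (fun _ _ => Nat.zero_le _) (Finset.mem_range.2 (by omega))
      refine descent X.F T hTp hT D a ha (sqRel_of_frob X.F T a hfr) ?_
        (MER_of_rel D hTp hT ha X hrel
          (fun F hF => hm F (List.mem_append.2 (Or.inl hF)))
          (fun F hF => hm F (List.mem_append.2 (Or.inr hF))))
      intro K' _ _ _ hK'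
      refine ih (by omega) ⟨K'⟩ ?_
      have h1 : Module.finrank ℚ X.F * Module.finrank X.F K' = Module.finrank ℚ K' :=
        Module.finrank_mul_finrank ℚ X.F K'
      change Module.finrank ℚ K' = 2 ^ (m - i) * n
      rw [← h1, hK', hX]
      have h2 : m - i = m - (i + 1) + 1 := by omega
      rw [h2, pow_succ]
      ring
  have h3 := chain m le_rfl K (by rw [Nat.sub_self, pow_zero, one_mul]; exact hK)
  exact h3

/-- towers of quadratic extensions of fields with local degrees divisible by `2 ^ i` -/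
theorem towv_dv {T : Finset ℕ} (D : LocData T) {a : ℕ → ℝ} {V : Finset ℕ} {d j M N : ℕ}
    (H : ∀ F : NF, M ∣ Module.finrank ℚ F.F → Module.finrank ℚ F.F ≤ N → DvV d V T F.F →
      HypQ D a j N [] F) (i : ℕ) :
    ∀ (F : Type) [Field F] [NumberField F], DvV d V T F → M ∣ Module.finrank ℚ F →
      2 ^ i * Module.finrank ℚ F ≤ N → Pool.Agent.UPQ.TowV D a (2 ^ j - 1) i F := by
  induction i with
  | zero =>
    intro F _ _ h1 h2 h3
    obtain ⟨Q, g1, g2, g3, -⟩ := H ⟨F⟩ h2 (by simpa using h3) h1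
    exact ⟨Q, g1, g2, g3⟩
  | succ i ih =>
    intro F _ _ h1 h2 h3
    have h4 : Module.finrank ℚ F ≤ N := by
      refine le_trans ?_ h3
      exact Nat.le_mul_of_pos_left _ (by positivity)
    obtain ⟨Q, g1, g2, -, g3⟩ := H ⟨F⟩ h2 h4 h1
    have h5 : ∀ (L : Type) [Field L] [NumberField L] [Algebra F L], Module.finrank F L = 2 →
        2 ^ i * Module.finrank ℚ L ≤ N := by
      intro L _ _ _ hL
      rw [← Module.finrank_mul_finrank ℚ F L, hL]
      rw [pow_succ] at h3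
      linarith
    refine ⟨⟨Q, g1, g2, fun L _ _ _ hL => g3 L hL ?_ fun X hX => absurd hX List.not_mem_nil⟩,
      fun L _ _ _ hL => ih L (dvV_ext (K := F) h1) ?_ (h5 L hL)⟩
    · refine le_trans ?_ (h5 L hL)
      exact Nat.le_mul_of_pos_left _ (by positivity)
    · rw [← Module.finrank_mul_finrank ℚ F L]
      exact h2.mul_right _

/-- from the version with poles to the Hasse-Weil conjecture, with exceptions -/
theorem hwv_dv {T : Finset ℕ} (hTp : ∀ p ∈ T, p.Prime)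
    (hT : ∀ p : ℕ, p.Prime → p < 101 → p ∈ T) (D : LocData T) {a : ℕ → ℝ}
    (ha : ∀ q : ℕ, |a q| ≤ 2 * Real.sqrt q) (hfr : FrobRel T a)
    (haz : ∀ q : ℕ, ∃ n : ℤ, a q = n) (V : Finset ℕ) (M N : ℕ) (L : List NF) {d j : ℕ}
    (hd : 1 ≤ d)
    (H : ∀ F : NF, M ∣ Module.finrank ℚ F.F → Module.finrank ℚ F.F ≤ 2 ^ j * N →
      DvV d V T F.F → (∀ X ∈ L, ¬ Nonempty (X.F ≃+* F.F)) → HypQ D a j (2 ^ j * N) L F) :
    ∃ V' : Finset ℕ, ∀ F : NF, M ∣ Module.finrank ℚ F.F → Module.finrank ℚ F.F ≤ N →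
      DvV d V' T F.F → D.HW a F.F := by
  obtain ⟨V', hV, hX⟩ := exists_V V T L
  refine ⟨V', fun F h1 h2 h3 => ?_⟩
  have hr : 2 ^ j - 1 < 2 ^ j := by
    have h4 : 0 < 2 ^ j := by positivity
    omega
  refine Pool.Agent.UPQ.towv_hw hTp hT D ha hfr haz hr F.F ?_
  refine towv_dv D (V := V') (d := d) (M := M) (N := 2 ^ j * N) (fun E h4 h5 hE => ?_) j F.F
    h3 h1 ?_
  · obtain ⟨Q, g1, g2, g3, g4⟩ := H E h4 h5 (fun p hp => hE p (hV hp)) (hX E (hE.ev hd))
    refine ⟨Q, g1, g2, g3, fun Y _ _ _ hY h6 _ => g4 Y hY h6 ?_⟩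
    exact hX ⟨Y⟩ (evV_ext (K := E.F) (hE.ev hd))
  · exact Nat.mul_le_mul_left _ h2

/-- `v_pol`: `v_main` with exceptions, and with poles allowed in the hypothesis -/
theorem v_pol {c' : ℕ → ℕ → ℕ} (hc' : ∀ i, AlgC i (c' i)) : ∃ Bd : ℕ → ℕ → ℕ → ℕ,
    ∀ {T : Finset ℕ} (_ : ∀ p ∈ T, p.Prime)
    (_ : ∀ p : ℕ, p.Prime → p < 101 → p ∈ T) (D : LocData T) (a : ℕ → ℝ)
    (_ : ∀ q : ℕ, |a q| ≤ 2 * Real.sqrt q) (_ : FrobRel T a)
    (_ : ∀ q : ℕ, ∃ n : ℤ, a q = n) (V : Finset ℕ) (L : List NF) (i n m j : ℕ) (_ : D.HW a ℚ)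
    (_ : ∀ F : NF, InfinitePlace.nrComplexPlaces F.F = 0 → 2 ^ m * n ∣ Module.finrank ℚ F.F →
      Module.finrank ℚ F.F ≤ Bd i n m → D.HW a F.F)
    (_ : ∀ F : NF, 2 ^ m * n ∣ Module.finrank ℚ F.F →
      Module.finrank ℚ F.F ≤ 2 ^ j * Bd i n m →
      DvV i V T F.F → (∀ X ∈ L, ¬ Nonempty (X.F ≃+* F.F)) →
      HypQ D a j (2 ^ j * Bd i n m) L F)
    (K : NF) (_ : Module.finrank ℚ K.F = n), D.HW a K.F := by
  obtain ⟨Bd, hBd⟩ := v_main hc'
  refine ⟨fun i n m => Bd (max i 1) n m, ?_⟩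
  intro T hTp hT D a ha hfr haz V L i n m j h0 hR hE K hK
  obtain ⟨V', hV'⟩ := hwv_dv hTp hT D ha hfr haz V (2 ^ m * n) (Bd (max i 1) n m) L
    (le_max_right i 1) (fun F h1 h2 h3 h4 => hE F h1 h2 (h3.mono (le_max_left i 1)) h4)
  exact hBd hTp hT D a ha hfr V' (max i 1) n m h0 hR (fun F h1 h2 h3 => hV' F h1 h2 h3) K hK

end Pool.Agent.GJ
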