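import Pool.Agent.GJ.X.Exx

/-!
# GJ/X-Lst: from spans to lists of fields
-/

namespace Pool.Agent.GJ

open NumberField IsDedekindDomain MulAction Pool.Agent.HWR Pool.Agent.QD Pool.Agent.H73.AL
  Pool.Agent.H73.DU Pool.Agent.MD Pool.Agent.LD Pool.Agent.TS

/-- sum of the marks of a list of fields -/
noncomputable def sM (L : List NF) (U : Subgroup GQ) : ℤ := (L.map fun F => mark F.F U).sum

theorem sM_nil (U : Subgroup GQ) : sM [] U = 0 := rfl

theorem sM_append (L L' : List NF) (U : Subgroup GQ) : sM (L ++ L') U = sM L U + sM L' U := by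
  unfold sM
  rw [List.map_append, List.sum_append]

theorem sM_cons (F : NF) (L : List NF) (U : Subgroup GQ) :
    sM (F :: L) U = mark F.F U + sM L U := by
  unfold sM
  rw [List.map_cons, List.sum_cons]

theorem rc_lists {z : Subgroup GQ → ℤ} (hz : z ∈ RC {H : Subgroup GQ | IsOpen (H : Set GQ)}) :
    ∃ Z Z' : List NF, ∀ U, z U + sM Z U = sM Z' U := by
  unfold RC at hz
  induction hz using AddSubgroup.closure_induction with
  | mem f hf =>
    obtain ⟨H, hH, rfl⟩ := hf
    obtain ⟨F, ψ, -, hm, -⟩ := exists_nf H hH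
    refine ⟨[], [F], fun U => ?_⟩
    rw [sM_nil, sM_cons, sM_nil, hm]
  | zero => exact ⟨[], [], fun U => by simp [sM_nil]⟩
  | add f f' _ _ h h' =>
    obtain ⟨A, B, h1⟩ := h
    obtain ⟨A', B', h2⟩ := h'
    refine ⟨A ++ A', B ++ B', fun U => ?_⟩
    rw [sM_append, sM_append, Pi.add_apply]
    linarith [h1 U, h2 U]
  | neg f _ h =>
    obtain ⟨A, B, h1⟩ := h
    refine ⟨B, A, fun U => ?_⟩
    rw [Pi.neg_apply]
    linarith [h1 U]

theorem es_lists {V T : Finset ℕ} {i n N : ℕ} {f : Subgroup GQ → ℤ} (hf : f ∈ ES V T i n N) :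
    ∃ A B C E Z Z' : List NF,
      (∀ t : GQ, f (Subgroup.zpowers t) + sM A (Subgroup.zpowers t) +
        2 * sM C (Subgroup.zpowers t) = sM B (Subgroup.zpowers t) +
          2 * sM E (Subgroup.zpowers t)) ∧
      (∀ P : Pl, PinT T P → ∀ U : Subgroup GQ, U ≤ P.D →
        f U + sM A U + 2 * sM C U + 2 * sM Z U = sM B U + 2 * sM E U + 2 * sM Z' U) ∧
      (∀ X ∈ A ++ B, n ∣ Module.finrank ℚ X.F ∧ Module.finrank ℚ X.F ≤ N ∧ Exa i V T X) ∧
      ∀ X ∈ C ++ E, n ∣ Module.finrank ℚ X.F ∧ Module.finrank ℚ X.F ≤ N ∧ DvV i V T X.F := by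
  unfold ES at hf
  induction hf using AddSubgroup.closure_induction with
  | mem f hf =>
    rcases hf with ⟨H, hH, hn, hB, rfl⟩ | ⟨H, hH, hn, hB, rfl⟩ | ⟨h1, z, hz, h2⟩
    · obtain ⟨F, ψ, hψ, hm, hd⟩ := exists_nf H hH.1.1
      refine ⟨[], [F], [], [], [], [], fun t => ?_, fun P _ U _ => ?_, ?_, ?_⟩
      · simp [sM_nil, sM_cons, hm]
      · simp [sM_nil, sM_cons, hm]
      · intro X hX
        simp only [List.nil_append, List.mem_singleton] at hX
        subst hX
        rw [hd]
        exact ⟨hn, hB, exa_of_ex hH X ψ hψ⟩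
      · intro X hX
        simp at hX
    · obtain ⟨F, ψ, hψ, hm, hd⟩ := exists_nf H hH.1
      refine ⟨[], [], [], [F], [], [], fun t => ?_, fun P _ U _ => ?_, ?_, ?_⟩
      · simp [sM_nil, sM_cons, hm]
      · simp [sM_nil, sM_cons, hm]
      · intro X hX
        simp at hX
      · intro X hX
        simp only [List.nil_append, List.mem_singleton] at hX
        subst hX
        rw [hd]
        refine ⟨hn, hB, ?_⟩
        rw [← ci_iff ψ, hψ]
        exact hH
    · obtain ⟨Z, Z', hZ⟩ := rc_lists hz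
      refine ⟨[], [], [], [], Z, Z', fun t => ?_, fun P hP U hU => ?_, ?_, ?_⟩
      · rw [h1 t]
        simp [sM_nil]
      · rw [h2 P hP U hU]
        have h3 := hZ U
        simp only [sM_nil]
        linarith
      · intro X hX
        simp at hX
      · intro X hX
        simp at hX
  | zero =>
    refine ⟨[], [], [], [], [], [], fun t => ?_, fun P _ U _ => ?_, ?_, ?_⟩
    · simp [sM_nil]
    · simp [sM_nil]
    · intro X hX
      simp at hX
    · intro X hX
      simp at hX
  | add f f' _ _ h h' =>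
    obtain ⟨A, B, C, E, Z, W, a1, a2, a3, a4⟩ := h
    obtain ⟨A', B', C', E', Z', W', b1, b2, b3, b4⟩ := h'
    refine ⟨A ++ A', B ++ B', C ++ C', E ++ E', Z ++ Z', W ++ W', fun t => ?_,
      fun P hP U hU => ?_, ?_, ?_⟩
    · simp only [sM_append, Pi.add_apply]
      linarith [a1 t, b1 t]
    · simp only [sM_append, Pi.add_apply]
      linarith [a2 P hP U hU, b2 P hP U hU]
    · intro X hX
      simp only [List.mem_append] at hX a3 b3
      rcases hX with (hX | hX) | (hX | hX)
      · exact a3 X (Or.inl hX)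
      · exact b3 X (Or.inl hX)
      · exact a3 X (Or.inr hX)
      · exact b3 X (Or.inr hX)
    · intro X hX
      simp only [List.mem_append] at hX a4 b4
      rcases hX with (hX | hX) | (hX | hX)
      · exact a4 X (Or.inl hX)
      · exact b4 X (Or.inl hX)
      · exact a4 X (Or.inr hX)
      · exact b4 X (Or.inr hX)
  | neg f _ h =>
    obtain ⟨A, B, C, E, Z, W, a1, a2, a3, a4⟩ := h
    refine ⟨B, A, E, C, W, Z, fun t => ?_, fun P hP U hU => ?_, ?_, ?_⟩
    · rw [Pi.neg_apply]
      linarith [a1 t]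
    · rw [Pi.neg_apply]
      linarith [a2 P hP U hU]
    · intro X hX
      simp only [List.mem_append] at hX a3
      exact a3 X hX.symm
    · intro X hX
      simp only [List.mem_append] at hX a4
      exact a4 X hX.symm

/-- `AlgC` from the theorem on subgroups -/
theorem algC_of {i : ℕ} {b : ℕ → ℕ}
    (h : ∀ (T : Finset ℕ) (_ : ∀ p ∈ T, p.Prime) (_ : 2 ∈ T) (V : Finset ℕ)
      (_ : ∃ P : Pl, Pin V T P) (H : Subgroup GQ), Ci V T i H → pc H ∈ ES V T i H.index (b H.index)) :
    AlgC i fun n => b n + n := by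
  intro T hTp h2 V K hK
  by_cases hV : ∃ P : Pl, Pin V T P
  · obtain ⟨ψ⟩ : Nonempty (K.F →+* AlgebraicClosure ℚ) := inferInstance
    have h1 := h T hTp h2 V hV (stb ψ) ((ci_iff ψ).2 hK)
    have hm : ∀ U, mark K.F U = pc (stb ψ) U := fun U => by rw [mark_eq_pc K.F ψ]; rfl
    obtain ⟨A, B, C, E, Z, Z', a1, a2, a3, a4⟩ := es_lists h1
    rw [index_stb ψ] at a3 a4
    refine ⟨A, B, C, E, Z, Z', ?_, ?_, ?_, ?_⟩
    · rintro U (⟨t, rfl⟩ | ⟨l, hl, g, hlT, -⟩)
      · change sM (K :: (A ++ (C ++ C))) _ = sM (B ++ (E ++ E)) _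
        simp only [sM_cons, sM_append, hm]
        linarith [a1 t]
      · exact absurd hlT (Finset.notMem_empty l)
    · intro l hl hf U hU
      change sM (K :: (A ++ (C ++ C)) ++ (Z ++ Z)) U = sM (B ++ (E ++ E) ++ (Z' ++ Z')) U
      have h3 := a2 (Pl.mk l 1) hl U (by
        change U ≤ cj 1⁻¹ (decomp ℚ_[l] (emb l))
        rw [inv_one, cj_one]
        exact hU)
      simp only [List.cons_append, sM_cons, sM_append, hm]
      linarith
    · intro X hX
      obtain ⟨c1, c2, c3⟩ := a3 X hX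
      exact ⟨c1, c2.trans (Nat.le_add_right _ _), c3⟩
    · intro X hX
      obtain ⟨c1, c2, c3⟩ := a4 X hX
      exact ⟨c1, c2.trans (Nat.le_add_right _ _), c3⟩
  · -- no place above `V` outside `T`
    have hK' : DvV (i + 1) V T K.F := by
      intro p hp hpp hpT
      exact absurd ⟨@Pl.mk p ⟨hpp⟩ 1, hp, hpT⟩ hV
    refine ⟨[], [K], [], [], [], [], fun U _ => by simp, fun l _ _ U _ => by simp, ?_, ?_⟩
    · intro X hX
      simp only [List.nil_append, List.mem_singleton] at hX
      rw [hX]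
      exact ⟨dvd_rfl, Nat.le_add_left _ _, Or.inl hK'⟩
    · intro X hX
      simp at hX

end Pool.Agent.GJ
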