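import Pool.Agent.TS.Defs
import Pool.Agent.MD.S.Main

/-!
# GJ/X-P1: a field whose local degrees above `V` are divisible by `2 ^ i`

The critical places are the places `w` above `V` with `2 ^ (i + 1) ∤ locDeg ℚ w`.  An extension in which the
places above the critical places have even local degree has local degrees divisible by `2 ^ (i + 1)`.  `p1b`
(MD/S/Main) gives the Hasse-Weil conjecture for the quadratic extensions, and up to the sign for the field
itself.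
-/

namespace Pool.Agent.GJ

open NumberField IsDedekindDomain Pool.Agent.HWR Pool.Agent.QD Pool.Agent.QD.In Pool.Agent.LD
  Pool.Agent.MD Pool.Agent.H73.AL

/-- all local degrees of `F` above the primes of `V` outside `T` are divisible by `2 ^ i` -/
def DvV (i : ℕ) (V T : Finset ℕ) (F : Type) [Field F] [NumberField F] : Prop :=
  ∀ p ∈ V, p.Prime → p ∉ T → ∀ w : HeightOneSpectrum (𝓞 F), ((p : ℕ) : 𝓞 F) ∈ w.asIdeal →
    2 ^ i ∣ locDeg ℚ w

/-- the places of `F` above a prime `p` lie over a place of the subfield above `p` -/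
theorem below_mem {K L : Type} [Field K] [NumberField K] [Field L] [NumberField L] [Algebra K L]
    (p : ℕ) (hp : p.Prime) (w : HeightOneSpectrum (𝓞 L)) (hw : ((p : ℕ) : 𝓞 L) ∈ w.asIdeal) :
    ∃ v : HeightOneSpectrum (𝓞 K), ((p : ℕ) : 𝓞 K) ∈ v.asIdeal ∧ Over v w := by
  have hmem : ((p : ℕ) : 𝓞 K) ∈ w.asIdeal.comap (algebraMap (𝓞 K) (𝓞 L)) := by
    rw [Ideal.mem_comap, map_natCast]
    exact hw
  have hwp : w.asIdeal.IsPrime := w.isPrime
  have hne : w.asIdeal.comap (algebraMap (𝓞 K) (𝓞 L)) ≠ ⊥ := by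
    intro h0
    rw [h0, Ideal.mem_bot] at hmem
    exact hp.ne_zero (by exact_mod_cast hmem)
  exact ⟨⟨_, Ideal.IsPrime.comap _, hne⟩, hmem, rfl⟩

theorem dvV_ext {i : ℕ} {V T : Finset ℕ} {K L : Type} [Field K] [NumberField K] [Field L]
    [NumberField L] [Algebra K L] (h : DvV i V T K) : DvV i V T L := by
  intro p hpV hp hpT w hw
  obtain ⟨v, hv, hvw⟩ := below_mem (K := K) p hp w hw
  rw [locDeg_tower ℚ K L v w hvw]
  exact (h p hpV hp hpT v hv).mul_right _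

private theorem p1_cop {K : Type} [Field K] [NumberField K] {v : HeightOneSpectrum (𝓞 K)}
    {p q : ℕ} (hp : p.Prime) (hq : q.Prime) (hne : p ≠ q) (h1 : ((p : ℕ) : 𝓞 K) ∈ v.asIdeal)
    (h2 : ((q : ℕ) : 𝓞 K) ∈ v.asIdeal) : False := by
  have hc : IsCoprime (p : ℤ) (q : ℤ) := Nat.isCoprime_iff_coprime.2 ((Nat.coprime_primes hp hq).2 hne)
  obtain ⟨a, b, hab⟩ := hc
  apply v.isPrime.ne_top
  rw [Ideal.eq_top_iff_one]
  have h3 : (1 : 𝓞 K) = (a : 𝓞 K) * ((p : ℕ) : 𝓞 K) + (b : 𝓞 K) * ((q : ℕ) : 𝓞 K) := by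
    have h4 := congrArg (fun z : ℤ => (z : 𝓞 K)) hab
    push_cast at h4
    exact h4.symm
  rw [h3]
  exact v.asIdeal.add_mem (v.asIdeal.mul_mem_left _ h1) (v.asIdeal.mul_mem_left _ h2)

/-- the critical places -/
theorem exists_crit (i : ℕ) (V T : Finset ℕ) (hTp : ∀ p ∈ T, p.Prime) (K : Type) [Field K]
    [NumberField K] : ∃ W : Finset (HeightOneSpectrum (𝓞 K)), (∀ v ∈ W, Away K T v) ∧
      ∀ v, v ∈ W ↔ (∃ p ∈ V, p.Prime ∧ p ∉ T ∧ ((p : ℕ) : 𝓞 K) ∈ v.asIdeal) ∧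
        ¬ 2 ^ (i + 1) ∣ locDeg ℚ v := by
  classical
  obtain ⟨V', hV'⟩ : ∃ V' : Finset ℕ, V' = V.filter fun p => p.Prime ∧ p ∉ T := ⟨_, rfl⟩
  have hV'p : ∀ p ∈ V', p.Prime := by
    intro p hp
    rw [hV', Finset.mem_filter] at hp
    exact hp.2.1
  have hfin := Pool.Agent.QD.In.not_away_finite K V' hV'p
  have hmem : ∀ w, w ∈ hfin.toFinset ↔ ∃ p ∈ V, p.Prime ∧ p ∉ T ∧ ((p : ℕ) : 𝓞 K) ∈ w.asIdeal := by
    intro w
    rw [hfin.mem_toFinset]
    have e : (w ∈ {v : HeightOneSpectrum (𝓞 K) | ¬ Away K V' v}) ↔ ¬ Away K V' w := Iff.rfl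
    rw [e]
    unfold Away
    push Not
    constructor
    · rintro ⟨p, hp, hpw⟩
      rw [hV', Finset.mem_filter] at hp
      exact ⟨p, hp.1, hp.2.1, hp.2.2, hpw⟩
    · rintro ⟨p, hp, h1, h2, hpw⟩
      exact ⟨p, by rw [hV', Finset.mem_filter]; exact ⟨hp, h1, h2⟩, hpw⟩
  refine ⟨hfin.toFinset.filter fun v => ¬ 2 ^ (i + 1) ∣ locDeg ℚ v, ?_, ?_⟩
  · intro v hv q hq hqv
    rw [Finset.mem_filter] at hv
    obtain ⟨p, hp, h1, h2, hpw⟩ := (hmem v).1 hv.1
    exact p1_cop h1 (hTp q hq) (fun h => h2 (h ▸ hq)) hpw hqv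
  · intro v
    rw [Finset.mem_filter, hmem]

/-- even local degrees above the critical places -/
theorem dvV_succ {i : ℕ} {V T : Finset ℕ} {K : Type} [Field K] [NumberField K]
    (hK : DvV i V T K) {W : Finset (HeightOneSpectrum (𝓞 K))}
    (hW : ∀ v, v ∈ W ↔ (∃ p ∈ V, p.Prime ∧ p ∉ T ∧ ((p : ℕ) : 𝓞 K) ∈ v.asIdeal) ∧
        ¬ 2 ^ (i + 1) ∣ locDeg ℚ v) (F : Ext K) (hF : AllEven W F) : DvV (i + 1) V T F.F := by
  intro p hpV hp hpT w hw
  obtain ⟨v, hv, hvw⟩ := below_mem (K := K) p hp w hw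
  rw [locDeg_tower ℚ K F.F v w hvw]
  by_cases h : 2 ^ (i + 1) ∣ locDeg ℚ v
  · exact h.mul_right _
  · have h1 : v ∈ W := (hW v).2 ⟨⟨p, hpV, hp, hpT, hv⟩, h⟩
    rw [pow_succ]
    exact Nat.mul_dvd_mul (hK p hpV hp hpT v hv) (hF v h1 w hvw)

theorem qtn_deg {k : Type} [Field k] [NumberField k] {m : ℕ} {F : Ext k} (h : QTn k m F) :
    Module.finrank ℚ F.F = 2 ^ m * Module.finrank ℚ k := by
  induction h with
  | base => rw [pow_zero, one_mul]
  | @step n F F' inst tow h deg ih =>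
    rw [← Module.finrank_mul_finrank ℚ F.F F'.F, deg, ih, pow_succ]
    ring

private theorem qtn_zero {k : Type} [Field k] [NumberField k] {m : ℕ} {F : Ext k}
    (h : QTn k m F) : m = 0 → F = ⟨k⟩ := by
  intro hm
  cases h with
  | base => rfl
  | step _ _ _ _ => omega

theorem p1_dv {T : Finset ℕ} (hTp : ∀ p ∈ T, p.Prime)
    (hT : ∀ p : ℕ, p.Prime → p < 101 → p ∈ T) (D : LocData T) {a : ℕ → ℝ}
    (ha : ∀ q : ℕ, |a q| ≤ 2 * Real.sqrt q) (hfr : FrobRel T a) (V : Finset ℕ) (i n N : ℕ)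
    (H : ∀ F : NF, n ∣ Module.finrank ℚ F.F → Module.finrank ℚ F.F ≤ N →
      DvV (i + 1) V T F.F → D.HW a F.F)
    (Y : Type) [Field Y] [NumberField Y] (hY : DvV i V T Y) (hN : 4 * Module.finrank ℚ Y ≤ N)
    (hn : n ∣ 2 * Module.finrank ℚ Y) :
    (∀ (L : Type) [Field L] [NumberField L] [Algebra Y L], Module.finrank Y L = 2 →
      D.HW a L) ∧ (n ∣ Module.finrank ℚ Y → HWpm D a Y) := by
  obtain ⟨W, hW1, hW2⟩ := exists_crit i V T hTp Y
  rcases Finset.eq_empty_or_nonempty W with hW | hW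
  · have hY' : DvV (i + 1) V T Y := by
      intro p hpV hp hpT v hv
      by_contra h
      have h1 : v ∈ W := (hW2 v).2 ⟨⟨p, hpV, hp, hpT, hv⟩, h⟩
      rw [hW] at h1
      exact absurd h1 (Finset.notMem_empty v)
    refine ⟨fun L _ _ _ hL => ?_, fun hn' => ?_⟩
    · have h1 : Module.finrank ℚ L = 2 * Module.finrank ℚ Y := by
        rw [← Module.finrank_mul_finrank ℚ Y L, hL, mul_comm]
      refine H ⟨L⟩ ?_ ?_ (dvV_ext (K := Y) hY')
      · change n ∣ Module.finrank ℚ L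
        rw [h1]
        exact hn
      · change Module.finrank ℚ L ≤ N
        omega
    · exact hwpm_of_hw D Y (H ⟨Y⟩ hn' (by change Module.finrank ℚ Y ≤ N; omega) hY')
  · have h1 : ∀ m : ℕ, m ≤ 0 + 2 → ∀ F : Ext Y, QTn Y m F → AllEven W F → D.HW a F.F := by
      intro m hm F hF hE
      rcases Nat.eq_zero_or_pos m with h0 | h0
      · exfalso
        have h2 := qtn_zero hF h0
        subst h2
        obtain ⟨v, hv⟩ := hW
        have h3 := hE v hv v (by unfold Over; exact Ideal.comap_id _)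
        rw [locDeg_self] at h3
        omega
      · have h2 := qtn_deg hF
        have h3 : 2 ^ m ≤ 2 ^ 2 := Nat.pow_le_pow_right two_pos hm
        refine H ⟨F.F⟩ ?_ ?_ (dvV_succ hY hW2 F hE)
        · change n ∣ Module.finrank ℚ F.F
          rw [h2]
          obtain ⟨j, rfl⟩ : ∃ j, m = j + 1 := ⟨m - 1, by omega⟩
          rw [pow_succ, mul_assoc]
          exact hn.mul_left _
        · change Module.finrank ℚ F.F ≤ N
          rw [h2]
          calc 2 ^ m * Module.finrank ℚ Y ≤ 2 ^ 2 * Module.finrank ℚ Y :=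
                Nat.mul_le_mul_right _ h3
            _ ≤ N := by omega
    have h2 := p1b Y T hTp hT D a ha hfr W hW1 0 h1
    refine ⟨fun L _ _ _ hL => ?_, fun _ => h2.2⟩
    let F' : Ext Y := { F := L }
    exact h2.1 0 le_rfl F' (QTn.step (F := ⟨Y⟩) (F' := F') (inferInstanceAs (Algebra Y L))
      (inferInstanceAs (IsScalarTower Y Y L)) QTn.base hL)

end Pool.Agent.GJ
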